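import Mathlib
import Pool.Agent.H208.Knaster.Small
import Pool.Agent.H208.Knaster.Stereo

set_option autoImplicit false

namespace Pool.Agent.Results.MP_045051_co.AffineAndAntipodal

open H208.Knaster

theorem exists_e (r m : ℕ) (hr : 1 ≤ r) (h : 3 * (r * (r + 2)) ≤ 8 * m) :
    ∃ e, 1 ≤ e ∧ 2 * e ≤ r + 1 ∧ e * (2 * r + 1) ≤ m + 1 + 2 * e * e ∧
      r * (r + 1) ≤ 2 * m + 2 * e * (2 * e + 1) := by
  obtain ⟨k, hk | hk | hk | hk⟩ : ∃ k, r = 4 * k ∨ r = 4 * k + 1 ∨ r = 4 * k + 2 ∨ r = 4 * k + 3 :=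
    ⟨r / 4, by omega⟩
  · subst hk
    refine ⟨k, by omega, by omega, ?_, ?_⟩
    · nlinarith
    · nlinarith
  · subst hk
    rcases Nat.eq_zero_or_pos k with h0 | h0
    · subst h0
      exact ⟨1, by norm_num, by norm_num, by omega, by omega⟩
    · refine ⟨k, by omega, by omega, ?_, ?_⟩
      · nlinarith
      · nlinarith
  · subst hk
    refine ⟨k + 1, by omega, by omega, ?_, ?_⟩
    · nlinarith
    · nlinarith
  · subst hk
    refine ⟨k + 1, by omega, by omega, ?_, ?_⟩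
    · nlinarith
    · nlinarith

/-- Let `1 ≤ r`, `n + 1 = m + r`, and let `S` be a finite set of points of the unit sphere `S^n`
such that `(S, m)` has the Knaster property. Then
(a) for each `e ≥ 1` with `2 e ≤ r + 1` and `e (2 r + 1) ≤ m + 1 + 2 e²`, every subset of `S` with
at most `2 e + 2` points is affinely independent;
(b) if `3 r (r + 2) ≤ 8 m`, or more generally if some `e` as in (a) satisfies
`r (r + 1) ≤ 2 m + 2 e (2 e + 1)`, then `S` is affinely independent and has at most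
`r + 1 = n - m + 2` points;
(c) if `2 r ≤ m + 1`, or `2 r ≤ m + 2` and `r` is even, or `RP^{r-1}` embeds in the unit sphere
of `R^m`, and if `S` contains two antipodal points `s, -s`, then `S = {s, -s}`;
(d) if `2 r ≤ m + 3` and `r ≥ 4` is even, or if `RP^{r-1}` embeds in `R^m`, then `S` contains at
most one antipodal pair. -/
theorem result (n m r : ℕ) (hr1 : 1 ≤ r) (hr : n + 1 = m + r)
    (S : Finset (EuclideanSpace ℝ (Fin (n + 1)))) (hS : ∀ s ∈ S, ‖s‖ = 1)
    (hK : KnasterProperty n m S) :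
    (∀ e : ℕ, 1 ≤ e → 2 * e ≤ r + 1 → e * (2 * r + 1) ≤ m + 1 + 2 * e * e →
      ∀ T ⊆ S, T.card ≤ 2 * e + 2 →
        AffineIndependent ℝ (fun t : T => (t : EuclideanSpace ℝ (Fin (n + 1))))) ∧
    ((3 * (r * (r + 2)) ≤ 8 * m ∨ ∃ e : ℕ, 1 ≤ e ∧ 2 * e ≤ r + 1 ∧
        e * (2 * r + 1) ≤ m + 1 + 2 * e * e ∧ r * (r + 1) ≤ 2 * m + 2 * e * (2 * e + 1)) →
      AffineIndependent ℝ (fun s : S => (s : EuclideanSpace ℝ (Fin (n + 1)))) ∧
        S.card ≤ r + 1) ∧
    ((2 * r ≤ m + 1 ∨ (2 * r ≤ m + 2 ∧ Even r) ∨ ProjEmbeds r m (Metric.sphere 0 1)) →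
      ∀ s ∈ S, -s ∈ S → ∀ t ∈ S, t = s ∨ t = -s) ∧
    (((2 * r ≤ m + 3 ∧ 4 ≤ r ∧ Even r) ∨ ProjEmbeds r m Set.univ) →
      ∀ s ∈ S, -s ∈ S → ∀ t ∈ S, -t ∈ S → t = s ∨ t = -s) := by
  classical
  have e1 : n + 1 - m = r := by omega
  have e2 : n + 2 - m = r + 1 := by omega
  have key : ∀ e : ℕ, 1 ≤ e → 2 * e ≤ r + 1 → e * (2 * r + 1) ≤ m + 1 + 2 * e * e →
      ∀ T ⊆ S, IsCircuit T → T.card ≤ 2 * e + 2 → False := by
    intro e he h2e hm T hTS hc hcard
    have hm' : e * (2 * (n + 1 - m) + 1 - 2 * e) ≤ m + 1 := by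
      rw [e1, Nat.mul_sub]
      have : e * (2 * e) = 2 * e * e := by ring
      rw [this]
      omega
    exact small_fail (fun s hs => hS s (hTS hs)) hcard hc he (by omega) hm' (hK.mono hTS)
  refine ⟨?_, ?_, ?_, ?_⟩
  · intro e he h2e hm T hTS hcard
    by_contra hdep
    obtain ⟨T', hT', hc⟩ := exists_circuit T hdep
    exact key e he h2e hm T' (hT'.trans hTS) hc ((Finset.card_le_card hT').trans hcard)
  · intro hcases
    obtain ⟨e, he, h2e, hm, hm2⟩ : ∃ e : ℕ, 1 ≤ e ∧ 2 * e ≤ r + 1 ∧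
        e * (2 * r + 1) ≤ m + 1 + 2 * e * e ∧ r * (r + 1) ≤ 2 * m + 2 * e * (2 * e + 1) := by
      rcases hcases with h | h
      · exact exists_e r m hr1 h
      · exact h
    have hind : AffineIndependent ℝ (fun s : S => (s : EuclideanSpace ℝ (Fin (n + 1)))) := by
      by_contra hdep
      obtain ⟨T, hTS, hc⟩ := exists_circuit S hdep
      have hT1 : ∀ s ∈ T, ‖s‖ = 1 := fun s hs => hS s (hTS hs)
      by_cases hcard : T.card ≤ 2 * e + 2
      · exact key e he h2e hm T hTS hc hcard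
      · obtain ⟨d, hd⟩ : ∃ d, T.card = d + 2 := ⟨T.card - 2, by omega⟩
        refine circuit_fail hT1 hd hc ?_ (hK.mono hTS)
        rw [e1, e2]
        have h2 : 2 * e + 1 ≤ d := by omega
        have h3 : (2 * e + 1) * (2 * e) ≤ d * (d - 1) := Nat.mul_le_mul h2 (by omega)
        have h4 : (2 * e + 1) * (2 * e) = 2 * e * (2 * e + 1) := by ring
        omega
    refine ⟨hind, ?_⟩
    have := card_le hS hind hK
    rw [e1] at this
    exact this
  · intro hr2 s hs hs' t ht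
    by_contra hcon
    push Not at hcon
    rcases hr2 with h | ⟨h, heven⟩ | hE
    · exact antipodal_fail hr h (hS s hs) (hS t ht) hs hs' ht hcon.1 hcon.2 hK
    · obtain ⟨p, hp⟩ := heven
      exact antipodal_even (p := p) (by omega) (by omega) (by omega) (hS s hs) (hS t ht)
        hs hs' ht hcon.1 hcon.2 hK
    · exact embed_one hr hE (hS s hs) (hS t ht) hs hs' ht hcon.1 hcon.2 hK
  · intro hr3 s hs hs' t ht ht'
    have hE : ProjEmbeds r m Set.univ := by
      rcases hr3 with ⟨h, h4, heven⟩ | h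
      · obtain ⟨p, hp⟩ := heven
        obtain ⟨k, rfl⟩ : ∃ k, r = k + 1 := ⟨r - 1, by omega⟩
        exact stereo (p := p) (by omega) (by omega) (by omega)
      · exact h
    by_contra hcon
    push Not at hcon
    exact embed_two hr hE (hS s hs) (hS t ht) hs hs' ht ht' hcon.1 hcon.2 hK

end Pool.Agent.Results.MP_045051_co.AffineAndAntipodal
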