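import Mathlib
import Pool.Agent.H208.Knaster.Small

set_option autoImplicit false

namespace Pool.Agent.Results.MP_045051_co.AffineDependence

open H208.Knaster

/-- Let `n + 1 = m + r`, let `S` be a finite set of points of the unit sphere `S^n`, and let
`e ≥ 1` satisfy `2 e ≤ r + 1` and `e (2 r + 1) ≤ m + 1 + 2 e²`.
(a) If `S` has an affinely dependent subset with at most `2 e + 2` points, then `(S, m)` does not
have the Knaster property.
(b) If moreover `r (r + 1) ≤ 2 m + 2 e (2 e + 1)` and `(S, m)` has the Knaster property, then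
`S` is affinely independent and has at most `r + 1 = n - m + 2` points. -/
theorem result (n m r e : ℕ) (hr : n + 1 = m + r) (he : 1 ≤ e) (h2e : 2 * e ≤ r + 1)
    (hm : e * (2 * r + 1) ≤ m + 1 + 2 * e * e)
    (S : Finset (EuclideanSpace ℝ (Fin (n + 1)))) (hS : ∀ s ∈ S, ‖s‖ = 1) :
    (∀ T ⊆ S, T.card ≤ 2 * e + 2 →
      ¬ AffineIndependent ℝ (fun t : T => (t : EuclideanSpace ℝ (Fin (n + 1)))) →
      ¬ KnasterProperty n m S) ∧
    (r * (r + 1) ≤ 2 * m + 2 * e * (2 * e + 1) → KnasterProperty n m S →
      AffineIndependent ℝ (fun s : S => (s : EuclideanSpace ℝ (Fin (n + 1)))) ∧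
        S.card ≤ r + 1) := by
  classical
  have e1 : n + 1 - m = r := by omega
  have e2 : n + 2 - m = r + 1 := by omega
  have hm' : e * (2 * (n + 1 - m) + 1 - 2 * e) ≤ m + 1 := by
    rw [e1, Nat.mul_sub]
    have : e * (2 * e) = 2 * e * e := by ring
    rw [this]
    omega
  have key : ∀ T ⊆ S, IsCircuit T → T.card ≤ 2 * e + 2 → ¬ KnasterProperty n m S := by
    intro T hTS hc hcard hK
    exact small_fail (fun s hs => hS s (hTS hs)) hcard hc he (by omega) hm' (hK.mono hTS)
  refine ⟨?_, ?_⟩
  · intro T hTS hcard hdep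
    obtain ⟨T', hT', hc⟩ := exists_circuit T hdep
    exact key T' (hT'.trans hTS) hc ((Finset.card_le_card hT').trans hcard)
  · intro hm2 hK
    have hind : AffineIndependent ℝ (fun s : S => (s : EuclideanSpace ℝ (Fin (n + 1)))) := by
      by_contra hdep
      obtain ⟨T, hTS, hc⟩ := exists_circuit S hdep
      have hT1 : ∀ s ∈ T, ‖s‖ = 1 := fun s hs => hS s (hTS hs)
      by_cases hcard : T.card ≤ 2 * e + 2
      · exact key T hTS hc hcard hK
      · obtain ⟨d, hd⟩ : ∃ d, T.card = d + 2 := ⟨T.card - 2, by omega⟩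
        refine circuit_fail hT1 hd hc ?_ (hK.mono hTS)
        rw [e1, e2]
        have h2 : 2 * e + 1 ≤ d := by omega
        have h3 : (2 * e + 1) * (2 * e) ≤ d * (d - 1) := Nat.mul_le_mul h2 (by omega)
        have h4 : (2 * e + 1) * (2 * e) = 2 * e * (2 * e + 1) := by ring
        omega
    refine ⟨hind, ?_⟩
    have := card_le hS hind hK
    rw [e1] at this
    exact this

end Pool.Agent.Results.MP_045051_co.AffineDependence
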