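import Mathlib
import Pool.Agent.H208.Knaster.Even

set_option autoImplicit false

namespace Pool.Agent.Results.MP_045051_co.AntipodalPair

open H208.Knaster

/-- Let `m ≤ n`, and let either `2 n + 1 ≤ 3 m`, or `2 n ≤ 3 m` with `n - m` odd. If a finite
subset `S` of the unit sphere `S^n` contains an antipodal pair `s, -s` and has at least three
points, then `(S, m)` does not have the Knaster property. -/
theorem result (n m : ℕ) (hmn : m ≤ n)
    (hnm : 2 * n + 1 ≤ 3 * m ∨ (2 * n ≤ 3 * m ∧ Odd (n - m)))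
    (S : Finset (EuclideanSpace ℝ (Fin (n + 1)))) (hS : ∀ x ∈ S, ‖x‖ = 1)
    (s : EuclideanSpace ℝ (Fin (n + 1))) (hs : s ∈ S) (hs' : -s ∈ S) (hcard : 3 ≤ S.card) :
    ¬ KnasterProperty n m S := by
  classical
  obtain ⟨t, ht⟩ : ((S.erase s).erase (-s)).Nonempty := by
    rw [← Finset.card_pos]
    have h1 : (S.erase s).card - 1 ≤ ((S.erase s).erase (-s)).card :=
      Finset.pred_card_le_card_erase
    have h2 : S.card - 1 ≤ (S.erase s).card := Finset.pred_card_le_card_erase
    omega
  rw [Finset.mem_erase, Finset.mem_erase] at ht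
  obtain ⟨h2, h1, htS⟩ := ht
  rcases hnm with h | ⟨h, hodd⟩
  · exact antipodal_fail (r := n + 1 - m) (by omega) (by omega) (hS s hs) (hS t htS)
      hs hs' htS h1 h2
  · obtain ⟨k, hk⟩ := hodd
    exact antipodal_even (p := k + 1) (by omega) (by omega) (by omega) (hS s hs) (hS t htS)
      hs hs' htS h1 h2

end Pool.Agent.Results.MP_045051_co.AntipodalPair
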