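import Mathlib
import Pool.Agent.H208.Knaster.Stereo

set_option autoImplicit false

namespace Pool.Agent.Results.MP_045051_co.EmbeddingCriterion

open H208.Knaster

/-- Let `n + 1 = m + r`, so that `RP^{r-1} = RP^{n-m}`.
(i) If `RP^{n-m}` embeds in the unit sphere `S^{m-1}` of `R^m`, then no finite subset `S` of `S^n`
that contains an antipodal pair `s, -s` and a third point has the Knaster property.
(ii) If `RP^{n-m}` embeds in `R^m`, then no finite subset `S` of `S^n` that contains two different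
antipodal pairs `s, -s` and `t, -t` has the Knaster property.
(iii) If `r` is even, `r ≥ 4` and `2 r ≤ m + 3`, then `RP^{n-m}` embeds in `R^m`, so that (ii)
applies. -/
theorem result (n m r : ℕ) (hr : n + 1 = m + r)
    (S : Finset (EuclideanSpace ℝ (Fin (n + 1)))) (hS : ∀ x ∈ S, ‖x‖ = 1) :
    (ProjEmbeds r m (Metric.sphere 0 1) →
      ∀ s ∈ S, -s ∈ S → ∀ t ∈ S, t ≠ s → t ≠ -s → ¬ KnasterProperty n m S) ∧
    (ProjEmbeds r m Set.univ →
      ∀ s ∈ S, -s ∈ S → ∀ t ∈ S, -t ∈ S → t ≠ s → t ≠ -s → ¬ KnasterProperty n m S) ∧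
    (Even r → 4 ≤ r → 2 * r ≤ m + 3 → ProjEmbeds r m Set.univ ∧
      ∀ s ∈ S, -s ∈ S → ∀ t ∈ S, -t ∈ S → t ≠ s → t ≠ -s → ¬ KnasterProperty n m S) := by
  refine ⟨fun hE s hs hs' t ht h1 h2 => embed_one hr hE (hS s hs) (hS t ht) hs hs' ht h1 h2,
    fun hE s hs hs' t ht ht' h1 h2 =>
      embed_two hr hE (hS s hs) (hS t ht) hs hs' ht ht' h1 h2, ?_⟩
  intro heven h4 hm
  have hE : ProjEmbeds r m Set.univ := by
    obtain ⟨p, hp⟩ := heven
    obtain ⟨k, rfl⟩ : ∃ k, r = k + 1 := ⟨r - 1, by omega⟩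
    exact stereo (p := p) (by omega) (by omega) (by omega)
  exact ⟨hE, fun s hs hs' t ht ht' h1 h2 =>
    embed_two hr hE (hS s hs) (hS t ht) hs hs' ht ht' h1 h2⟩

end Pool.Agent.Results.MP_045051_co.EmbeddingCriterion
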